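import Pool.Agent.helper4.QX.SpecP

/-! # TS1: the averaged functions -/

set_option autoImplicit false

open scoped MatrixGroups ContDiff Topology UpperHalfPlane
open UpperHalfPlane MeasureTheory ProbabilityTheory Filter Set Polynomial
open Pool.Agent.QU Pool.Agent.RP

namespace Pool.Agent.QX

/-- the average over an interval of half length `δ` -/
noncomputable def TS1_A (δ : ℝ) (G : ℝ → ℝ) (θ : ℝ) : ℝ :=
  (2 * δ)⁻¹ * ∫ s in (-δ)..δ, G (θ + s)

theorem TS1_int (G : ℝ → ℝ) (hm : Measurable G) (hb : ∀ θ, 0 ≤ G θ ∧ G θ ≤ 1) (u v : ℝ) :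
    IntervalIntegrable G volume u v := by
  rw [intervalIntegrable_iff]
  apply Measure.integrableOn_of_bounded (M := 1)
  · exact measure_Ioc_lt_top.ne
  · exact hm.aestronglyMeasurable
  · exact Eventually.of_forall fun θ => by
      rw [Real.norm_eq_abs, abs_le]
      exact ⟨by linarith [(hb θ).1], (hb θ).2⟩

theorem TS1_shift (G : ℝ → ℝ) (δ θ : ℝ) :
    ∫ s in (-δ)..δ, G (θ + s) = ∫ u in (θ - δ)..(θ + δ), G u := by
  rw [intervalIntegral.integral_comp_add_left (fun u => G u) θ]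
  rw [← sub_eq_add_neg]

theorem TS1_cont (δ : ℝ) (G : ℝ → ℝ) (hm : Measurable G) (hb : ∀ θ, 0 ≤ G θ ∧ G θ ≤ 1) :
    Continuous (TS1_A δ G) := by
  have hi := TS1_int G hm hb
  have hc : Continuous fun x => ∫ u in (0 : ℝ)..x, G u :=
    intervalIntegral.continuous_primitive hi 0
  have h : TS1_A δ G = fun θ => (2 * δ)⁻¹ * ((∫ u in (0 : ℝ)..(θ + δ), G u) -
      ∫ u in (0 : ℝ)..(θ - δ), G u) := by
    funext θ
    unfold TS1_A
    rw [TS1_shift, intervalIntegral.integral_interval_sub_left (hi _ _) (hi _ _)]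
  rw [h]
  exact continuous_const.mul ((hc.comp (continuous_id.add continuous_const)).sub
    (hc.comp (continuous_id.sub continuous_const)))

theorem TS1_bd (δ : ℝ) (hδ : 0 < δ) (G : ℝ → ℝ) (hm : Measurable G)
    (hb : ∀ θ, 0 ≤ G θ ∧ G θ ≤ 1) (θ : ℝ) : 0 ≤ TS1_A δ G θ ∧ TS1_A δ G θ ≤ 1 := by
  unfold TS1_A
  have hle : -δ ≤ δ := by linarith
  constructor
  · apply mul_nonneg (by positivity)
    exact intervalIntegral.integral_nonneg hle fun s _ => (hb _).1
  · have h1 : ∫ s in (-δ)..δ, G (θ + s) ≤ ∫ _s in (-δ)..δ, (1 : ℝ) := by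
      apply intervalIntegral.integral_mono_on hle
      · exact TS1_int (fun s => G (θ + s)) (hm.comp (measurable_const_add θ)) (fun s => hb _) _ _
      · exact intervalIntegrable_const
      · exact fun s _ => (hb _).2
    rw [intervalIntegral.integral_const, smul_eq_mul, mul_one] at h1
    have h2 : δ - -δ = 2 * δ := by ring
    rw [h2] at h1
    calc (2 * δ)⁻¹ * ∫ s in (-δ)..δ, G (θ + s) ≤ (2 * δ)⁻¹ * (2 * δ) :=
          mul_le_mul_of_nonneg_left h1 (by positivity)
      _ = 1 := inv_mul_cancel₀ (by positivity)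

theorem TS1_one (δ : ℝ) (hδ : 0 < δ) (G : ℝ → ℝ) (θ : ℝ)
    (h : ∀ s, |s| ≤ δ → G (θ + s) = 1) : TS1_A δ G θ = 1 := by
  unfold TS1_A
  have hle : -δ ≤ δ := by linarith
  have h1 : ∫ s in (-δ)..δ, G (θ + s) = ∫ _s in (-δ)..δ, (1 : ℝ) := by
    apply intervalIntegral.integral_congr
    intro s hs
    rw [uIcc_of_le hle, mem_Icc] at hs
    exact h s (abs_le.2 hs)
  rw [h1, intervalIntegral.integral_const, smul_eq_mul, mul_one]
  have h2 : δ - -δ = 2 * δ := by ring
  rw [h2]
  exact inv_mul_cancel₀ (by positivity)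

theorem TS1_zero (δ : ℝ) (hδ : 0 < δ) (G : ℝ → ℝ) (θ : ℝ)
    (h : ∀ s, |s| < δ → G (θ + s) = 0) : TS1_A δ G θ = 0 := by
  unfold TS1_A
  have hle : -δ ≤ δ := by linarith
  have h1 : ∫ s in (-δ)..δ, G (θ + s) = 0 := by
    rw [intervalIntegral.integral_of_le hle, integral_Ioc_eq_integral_Ioo]
    rw [setIntegral_congr_fun measurableSet_Ioo (g := fun _ => (0 : ℝ))
      (fun s hs => h s (abs_lt.2 (mem_Ioo.1 hs)))]
    simp
  rw [h1, mul_zero]

theorem TS1_even (δ : ℝ) (G : ℝ → ℝ) (he : ∀ θ, G (-θ) = G θ) (θ : ℝ) :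
    TS1_A δ G (-θ) = TS1_A δ G θ := by
  unfold TS1_A
  have h := intervalIntegral.integral_comp_neg (a := -δ) (b := δ) (fun s => G (-θ + s))
  rw [neg_neg] at h
  rw [← h]
  apply congrArg
  apply intervalIntegral.integral_congr
  intro s _
  show G (-θ + -s) = G (θ + s)
  rw [← he (θ + s)]
  apply congrArg
  ring

theorem TS1_per (δ : ℝ) (G : ℝ → ℝ) (hp : ∀ θ, G (θ + 2 * Real.pi) = G θ) (θ : ℝ) :
    TS1_A δ G (θ + 2 * Real.pi) = TS1_A δ G θ := by
  unfold TS1_A
  apply congrArg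
  apply intervalIntegral.integral_congr
  intro s _
  show G (θ + 2 * Real.pi + s) = G (θ + s)
  rw [← hp (θ + s)]
  apply congrArg
  ring

/-- the inner integral -/
theorem TS1_inner (G : ℝ → ℝ) (hm : Measurable G) (hb : ∀ θ, 0 ≤ G θ ∧ G θ ≤ 1)
    (hp : ∀ θ, G (θ + 2 * Real.pi) = G θ) (j : ℕ) (s : ℝ) :
    ∫ θ in (-Real.pi)..Real.pi, G (θ + s) * Real.cos (j * θ) =
      Real.cos (j * s) * (∫ θ in (-Real.pi)..Real.pi, G θ * Real.cos (j * θ)) +
      Real.sin (j * s) * ∫ θ in (-Real.pi)..Real.pi, G θ * Real.sin (j * θ) := by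
  set K : ℝ → ℝ := fun u => G u * Real.cos (j * (u - s)) with hK
  have hKper : Function.Periodic K (2 * Real.pi) := by
    intro u
    rw [hK]
    simp only
    rw [hp]
    apply congrArg
    have : (j : ℝ) * (u + 2 * Real.pi - s) = j * (u - s) + j * (2 * Real.pi) := by ring
    rw [this, Real.cos_add_nat_mul_two_pi]
  have h1 : ∫ θ in (-Real.pi)..Real.pi, G (θ + s) * Real.cos (j * θ) =
      ∫ θ in (-Real.pi)..Real.pi, K (θ + s) := by
    apply intervalIntegral.integral_congr
    intro θ _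
    show G (θ + s) * Real.cos (j * θ) = G (θ + s) * Real.cos (j * (θ + s - s))
    rw [add_sub_cancel_right]
  rw [h1, intervalIntegral.integral_comp_add_right (fun u => K u) s]
  have h2 := hKper.intervalIntegral_add_eq (-Real.pi + s) (-Real.pi)
  have e1 : -Real.pi + s + 2 * Real.pi = Real.pi + s := by ring
  have e2 : -Real.pi + 2 * Real.pi = Real.pi := by ring
  rw [e1, e2] at h2
  rw [h2]
  have hi1 : IntervalIntegrable (fun θ => Real.cos (j * s) * (G θ * Real.cos (j * θ))) volume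
      (-Real.pi) Real.pi := by
    apply IntervalIntegrable.const_mul
    exact (TS1_int G hm hb _ _).mul_continuousOn (by fun_prop)
  have hi2 : IntervalIntegrable (fun θ => Real.sin (j * s) * (G θ * Real.sin (j * θ))) volume
      (-Real.pi) Real.pi := by
    apply IntervalIntegrable.const_mul
    exact (TS1_int G hm hb _ _).mul_continuousOn (by fun_prop)
  rw [← intervalIntegral.integral_const_mul, ← intervalIntegral.integral_const_mul,
    ← intervalIntegral.integral_add hi1 hi2]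
  apply intervalIntegral.integral_congr
  intro θ _
  show G θ * Real.cos (j * (θ - s)) =
    Real.cos (j * s) * (G θ * Real.cos (j * θ)) + Real.sin (j * s) * (G θ * Real.sin (j * θ))
  rw [mul_sub, Real.cos_sub]
  ring

theorem TS1_four (δ : ℝ) (hδ : 0 < δ) (G : ℝ → ℝ) (hm : Measurable G)
    (hb : ∀ θ, 0 ≤ G θ ∧ G θ ≤ 1) (hp : ∀ θ, G (θ + 2 * Real.pi) = G θ) (j : ℕ) (hj : 1 ≤ j) :
    ∫ θ in (-Real.pi)..Real.pi, TS1_A δ G θ * Real.cos (j * θ) =
      Real.sin (j * δ) / (j * δ) * ∫ θ in (-Real.pi)..Real.pi, G θ * Real.cos (j * θ) := by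
  have hπ : -Real.pi ≤ Real.pi := by linarith [Real.pi_pos]
  have hle : -δ ≤ δ := by linarith
  have hj0 : (0 : ℝ) < j := by exact_mod_cast hj
  have h1 : ∫ θ in (-Real.pi)..Real.pi, TS1_A δ G θ * Real.cos (j * θ) =
      (2 * δ)⁻¹ * ∫ θ in (-Real.pi)..Real.pi, ∫ s in (-δ)..δ, G (θ + s) * Real.cos (j * θ) := by
    rw [← intervalIntegral.integral_const_mul]
    apply intervalIntegral.integral_congr
    intro θ _
    show (2 * δ)⁻¹ * (∫ s in (-δ)..δ, G (θ + s)) * Real.cos (j * θ) =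
      (2 * δ)⁻¹ * ∫ s in (-δ)..δ, G (θ + s) * Real.cos (j * θ)
    rw [intervalIntegral.integral_mul_const]
    ring
  have h2 : ∫ θ in (-Real.pi)..Real.pi, ∫ s in (-δ)..δ, G (θ + s) * Real.cos (j * θ) =
      ∫ s in (-δ)..δ, ∫ θ in (-Real.pi)..Real.pi, G (θ + s) * Real.cos (j * θ) := by
    rw [intervalIntegral.integral_of_le hπ, intervalIntegral.integral_of_le hle]
    simp only [intervalIntegral.integral_of_le hπ, intervalIntegral.integral_of_le hle]
    apply integral_integral_swap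
    have hfin : IsFiniteMeasure (((volume : Measure ℝ).restrict (Ioc (-Real.pi) Real.pi)).prod
        ((volume : Measure ℝ).restrict (Ioc (-δ) δ))) := inferInstance
    apply Integrable.of_bound (C := 1)
    · apply Measurable.aestronglyMeasurable
      apply Measurable.mul
      · exact hm.comp (measurable_fst.add measurable_snd)
      · exact (Real.measurable_cos.comp (measurable_fst.const_mul _))
    · exact Eventually.of_forall fun x => by
        show ‖G (x.1 + x.2) * Real.cos (j * x.1)‖ ≤ 1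
        rw [norm_mul, Real.norm_eq_abs, Real.norm_eq_abs, abs_of_nonneg (hb _).1]
        exact mul_le_one₀ (hb _).2 (abs_nonneg _) (Real.abs_cos_le_one _)
  rw [h1, h2]
  simp only [TS1_inner G hm hb hp j]
  set a := ∫ θ in (-Real.pi)..Real.pi, G θ * Real.cos (j * θ)
  set b := ∫ θ in (-Real.pi)..Real.pi, G θ * Real.sin (j * θ)
  have hi1 : IntervalIntegrable (fun s : ℝ => Real.cos (j * s) * a) volume (-δ) δ :=
    Continuous.intervalIntegrable (by fun_prop) _ _
  have hi2 : IntervalIntegrable (fun s : ℝ => Real.sin (j * s) * b) volume (-δ) δ :=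
    Continuous.intervalIntegrable (by fun_prop) _ _
  rw [intervalIntegral.integral_add hi1 hi2, intervalIntegral.integral_mul_const,
    intervalIntegral.integral_mul_const,
    intervalIntegral.integral_comp_mul_left (fun x => Real.cos x) hj0.ne',
    intervalIntegral.integral_comp_mul_left (fun x => Real.sin x) hj0.ne', integral_cos, integral_sin]
  rw [mul_neg, Real.cos_neg, Real.sin_neg, sub_self, smul_zero, zero_mul, add_zero, smul_eq_mul]
  field_simp
  ring

/-- the properties of the `k`-th function -/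
def TS1_P (c δ : ℝ) (k : ℕ) (G : ℝ → ℝ) : Prop :=
  Measurable G ∧ (∀ θ, G (-θ) = G θ) ∧ (∀ θ, G (θ + 2 * Real.pi) = G θ) ∧
    (∀ θ, 0 ≤ G θ ∧ G θ ≤ 1) ∧
    (∀ θ, (∀ n : ℤ, c + k * δ < |θ - n * Real.pi|) → G θ = 0) ∧
    (1 ≤ k → ∀ θ, (∀ n : ℤ, c + k * δ ≤ |θ - n * Real.pi|) → G θ = 0) ∧
    (∀ θ, (∃ n : ℤ, |θ - n * Real.pi| ≤ c - k * δ) → G θ = 1) ∧
    (∀ j : ℕ, 1 ≤ j → |∫ θ in (-Real.pi)..Real.pi, G θ * Real.cos (j * θ)| ≤
      2 * Real.pi * (1 / (j * δ)) ^ k) ∧ (1 ≤ k → Continuous G)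

open scoped Classical in
theorem TS1_base (c δ : ℝ) : ∃ G, TS1_P c δ 0 G := by
  refine ⟨fun θ => if ∃ n : ℤ, |θ - n * Real.pi| ≤ c then 1 else 0, ?_, ?_, ?_, ?_, ?_, ?_, ?_,
    ?_, ?_⟩
  · have hms : MeasurableSet {θ : ℝ | ∃ n : ℤ, |θ - n * Real.pi| ≤ c} := by
      have : {θ : ℝ | ∃ n : ℤ, |θ - n * Real.pi| ≤ c} = ⋃ n : ℤ, {θ : ℝ | |θ - n * Real.pi| ≤ c} := by
        ext θ
        simp
      rw [this]
      apply MeasurableSet.iUnion
      intro n
      exact (isClosed_le (by fun_prop) continuous_const).measurableSet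
    exact Measurable.ite hms measurable_const measurable_const
  · intro θ
    have : (∃ n : ℤ, |-θ - n * Real.pi| ≤ c) ↔ ∃ n : ℤ, |θ - n * Real.pi| ≤ c := by
      constructor
      · rintro ⟨n, hn⟩
        refine ⟨-n, ?_⟩
        rw [← abs_neg] at hn
        push_cast
        have e : -(-θ - n * Real.pi) = θ - -n * Real.pi := by ring
        rw [e] at hn
        exact hn
      · rintro ⟨n, hn⟩
        refine ⟨-n, ?_⟩
        rw [← abs_neg] at hn
        push_cast
        have e : -(θ - n * Real.pi) = -θ - -n * Real.pi := by ring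
        rw [e] at hn
        exact hn
    simp only [this]
  · intro θ
    have : (∃ n : ℤ, |θ + 2 * Real.pi - n * Real.pi| ≤ c) ↔ ∃ n : ℤ, |θ - n * Real.pi| ≤ c := by
      constructor
      · rintro ⟨n, hn⟩
        refine ⟨n - 2, ?_⟩
        push_cast
        have e : θ + 2 * Real.pi - n * Real.pi = θ - (n - 2) * Real.pi := by ring
        rw [e] at hn
        exact hn
      · rintro ⟨n, hn⟩
        refine ⟨n + 2, ?_⟩
        push_cast
        have e : θ - n * Real.pi = θ + 2 * Real.pi - (n + 2) * Real.pi := by ring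
        rw [e] at hn
        exact hn
    simp only [this]
  · intro θ
    dsimp only
    split_ifs
    · exact ⟨zero_le_one, le_rfl⟩
    · exact ⟨le_rfl, zero_le_one⟩
  · intro θ h
    dsimp only
    rw [if_neg]
    rintro ⟨n, hn⟩
    have := h n
    rw [Nat.cast_zero, zero_mul, add_zero] at this
    exact absurd hn (not_le.2 this)
  · intro h
    exact absurd h (by norm_num)
  · intro θ h
    dsimp only
    rw [if_pos]
    obtain ⟨n, hn⟩ := h
    rw [Nat.cast_zero, zero_mul, sub_zero] at hn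
    exact ⟨n, hn⟩
  · intro j _
    rw [pow_zero, mul_one]
    have h := intervalIntegral.norm_integral_le_of_norm_le_const (a := -Real.pi) (b := Real.pi)
      (C := 1) (f := fun θ : ℝ => (if ∃ n : ℤ, |θ - n * Real.pi| ≤ c then (1 : ℝ) else 0) *
        Real.cos (j * θ)) (fun θ _ => by
        rw [norm_mul, Real.norm_eq_abs, Real.norm_eq_abs]
        refine mul_le_one₀ ?_ (abs_nonneg _) (Real.abs_cos_le_one _)
        split_ifs
        · rw [abs_one]
        · rw [abs_zero]; exact zero_le_one)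
    rw [Real.norm_eq_abs] at h
    refine h.trans ?_
    have e : Real.pi - -Real.pi = 2 * Real.pi := by ring
    rw [e, one_mul, abs_of_pos Real.two_pi_pos]
  · intro h
    exact absurd h (by norm_num)

theorem TS1_step (c δ : ℝ) (hδ : 0 < δ) (k : ℕ) (G : ℝ → ℝ) (h : TS1_P c δ k G) :
    TS1_P c δ (k + 1) (TS1_A δ G) := by
  obtain ⟨hm, he, hp, hb, h0, _, h1, hf, _⟩ := h
  have hz : ∀ θ, (∀ n : ℤ, c + ((k + 1 : ℕ) : ℝ) * δ ≤ |θ - n * Real.pi|) → TS1_A δ G θ = 0 := by
    intro θ hθ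
    apply TS1_zero δ hδ
    intro s hs
    apply h0
    intro n
    have h3 := hθ n
    push_cast at h3
    have h4 := abs_sub_abs_le_abs_sub (θ - n * Real.pi) (-s)
    rw [abs_neg] at h4
    have e : θ - n * Real.pi - -s = θ + s - n * Real.pi := by ring
    rw [e] at h4
    nlinarith
  refine ⟨(TS1_cont δ G hm hb).measurable, TS1_even δ G he, TS1_per δ G hp, TS1_bd δ hδ G hm hb,
    fun θ hθ => hz θ fun n => (hθ n).le, fun _ => hz, ?_, ?_, fun _ => TS1_cont δ G hm hb⟩
  · rintro θ ⟨n, hn⟩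
    apply TS1_one δ hδ
    intro s hs
    apply h1
    refine ⟨n, ?_⟩
    push_cast at hn
    have e : θ + s - n * Real.pi = (θ - n * Real.pi) + s := by ring
    rw [e]
    have h4 := abs_add_le (θ - n * Real.pi) s
    nlinarith
  · intro j hj
    have hj0 : (0 : ℝ) < j := by exact_mod_cast hj
    rw [TS1_four δ hδ G hm hb hp j hj, abs_mul, pow_succ]
    have h5 : |Real.sin (j * δ) / (j * δ)| ≤ 1 / (j * δ) := by
      rw [abs_div, abs_of_pos (mul_pos hj0 hδ)]
      exact div_le_div_of_nonneg_right (Real.abs_sin_le_one _) (mul_pos hj0 hδ).le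
    calc |Real.sin (j * δ) / (j * δ)| * |∫ θ in (-Real.pi)..Real.pi, G θ * Real.cos (j * θ)|
        ≤ 1 / (j * δ) * (2 * Real.pi * (1 / (j * δ)) ^ k) :=
          mul_le_mul h5 (hf j hj) (abs_nonneg _) (by positivity)
      _ = 2 * Real.pi * ((1 / (j * δ)) ^ k * (1 / (j * δ))) := by ring

theorem TS1_all (c δ : ℝ) (hδ : 0 < δ) (k : ℕ) : ∃ G, TS1_P c δ k G := by
  induction k with
  | zero => exact TS1_base c δ
  | succ k ih =>
    obtain ⟨G, hG⟩ := ih
    exact ⟨_, TS1_step c δ hδ k G hG⟩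

theorem TS1 : TS1_stmt := by
  intro r a b hr ha hab hb
  have hr0 : (0 : ℝ) < r := by
    have : 0 < r := by omega
    exact_mod_cast this
  set δ : ℝ := (b - a) / (2 * r) with hδd
  have hδ : 0 < δ := by
    rw [hδd]
    exact div_pos (by linarith) (by linarith)
  have hrδ : (r : ℝ) * δ = (b - a) / 2 := by
    rw [hδd]
    field_simp
  obtain ⟨G, hm, he, hp, hbd, _, h0, h1, hf, hc⟩ := TS1_all ((a + b) / 2) δ hδ r
  rw [hrδ] at h0 h1
  have e0 : (a + b) / 2 + (b - a) / 2 = b := by ring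
  have e1 : (a + b) / 2 - (b - a) / 2 = a := by ring
  rw [e0] at h0
  rw [e1] at h1
  refine ⟨G, hc (by omega), he, hp, hbd, ?_, ?_, ?_, ?_⟩
  · intro θ h2 h3
    apply h0 (by omega)
    intro n
    rcases le_or_gt n 0 with hn | hn
    · have hn' : (n : ℝ) ≤ 0 := by exact_mod_cast hn
      have : (n : ℝ) * Real.pi ≤ 0 := mul_nonpos_of_nonpos_of_nonneg hn' Real.pi_pos.le
      rw [abs_of_nonneg (by linarith)]
      linarith
    · have hn' : (1 : ℝ) ≤ n := by exact_mod_cast hn
      have : Real.pi ≤ (n : ℝ) * Real.pi := le_mul_of_one_le_left Real.pi_pos.le hn'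
      rw [abs_of_nonpos (by linarith)]
      linarith
  · intro θ h2 h3
    apply h1
    refine ⟨0, ?_⟩
    rw [Int.cast_zero, zero_mul, sub_zero, abs_of_nonneg h2]
    exact h3
  · intro θ h2 h3
    apply h1
    refine ⟨1, ?_⟩
    rw [Int.cast_one, one_mul, abs_of_nonpos (by linarith)]
    linarith
  · intro j hj
    have hj0 : (0 : ℝ) < j := by exact_mod_cast hj
    rw [abs_mul, abs_of_pos (inv_pos.2 Real.two_pi_pos)]
    have h4 := hf j hj
    have h5 : (1 / (j * δ)) ^ r = (2 * r / ((b - a) * j)) ^ r := by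
      rw [hδd]
      apply congrArg (fun x : ℝ => x ^ r)
      have : b - a ≠ 0 := by linarith
      field_simp
    rw [← h5]
    calc (2 * Real.pi)⁻¹ * |∫ θ in (-Real.pi)..Real.pi, G θ * Real.cos (j * θ)|
        ≤ (2 * Real.pi)⁻¹ * (2 * Real.pi * (1 / (j * δ)) ^ r) :=
          mul_le_mul_of_nonneg_left h4 (inv_pos.2 Real.two_pi_pos).le
      _ = (1 / (j * δ)) ^ r := by
          rw [← mul_assoc, inv_mul_cancel₀ Real.two_pi_pos.ne', one_mul]

end Pool.Agent.QX
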